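import Pool.Agent.Lib.MP_fa837f_gt.P2.Iface

/-!
FR: Friedrichs' lemma.
-/

set_option autoImplicit false

open MeasureTheory Set Filter Topology

namespace Pool.Agent.Lib.MP_fa837f_gt.P2.H78

variable {ι : Type} [Fintype ι] [DecidableEq ι]

omit [DecidableEq ι] in
theorem int_shift {F : (ι → ℝ) → ℝ} (hF : Integrable F) (x : ι → ℝ) {ε : ℝ} (hε : 0 < ε) :
    Integrable fun w : ι → ℝ => F (x - ε • w) := by
  have h1 : Integrable fun w : ι → ℝ => F (x - w) := hF.comp_sub_left x
  have h2 := h1.comp_smul hε.ne'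
  exact h2

omit [DecidableEq ι] in
theorem ae_shift {F G : (ι → ℝ) → ℝ} (hF : F =ᵐ[volume] G) (x : ι → ℝ) {ε : ℝ} (hε : 0 < ε) :
    ∀ᵐ w : ι → ℝ, F (x - ε • w) = G (x - ε • w) := by
  have h1 : ∀ᵐ v : ι → ℝ, F (x - v) = G (x - v) :=
    (quasiMeasurePreserving_sub_left_of_right_invariant volume x).ae hF
  rw [ae_iff] at h1 ⊢
  have h2 := Measure.addHaar_preimage_smul (volume : Measure (ι → ℝ)) hε.ne'
    {v : ι → ℝ | ¬F (x - v) = G (x - v)}
  rw [h1, mul_zero] at h2
  exact h2

/-- The kernel. -/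
noncomputable def kern (C : (ι → ℝ) → ι → ι → ℝ) (φ : (ι → ℝ) → ℝ) (ε : ℝ) (q p : ι)
    (x w : ι → ℝ) : ℝ :=
  ε⁻¹ * ((C (x - ε • w) p q - C x p q) * pd p φ w) -
    pd p (fun z => C z p q) (x - ε • w) * φ w

theorem phi_cs {φ : (ι → ℝ) → ℝ} (hφ : Mol φ) : HasCompactSupport φ := by
  refine HasCompactSupport.of_support_subset_isCompact (isCompact_closedBall (0 : ι → ℝ) 1) ?_
  intro w hw
  rw [mem_closedBall_zero_iff]
  by_contra h
  exact hw (hφ.supp w (not_le.mp h))

theorem pd_cs {φ : (ι → ℝ) → ℝ} (hφ : Mol φ) (p : ι) : HasCompactSupport (pd p φ) := by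
  have h := (phi_cs hφ).fderiv_apply ℝ (Pi.single p (1 : ℝ))
  exact h

theorem pd_cont {f : (ι → ℝ) → ℝ} (hf : ContDiff ℝ (⊤ : ℕ∞) f) (p : ι) : Continuous (pd p f) := by
  have h : Continuous (fderiv ℝ f) := hf.continuous_fderiv (by simp)
  exact h.clm_apply continuous_const

theorem pd_zero {φ : (ι → ℝ) → ℝ} (hφ : Mol φ) (p : ι) (w : ι → ℝ) (hw : 1 < ‖w‖) :
    pd p φ w = 0 := by
  have h : φ =ᶠ[𝓝 w] fun _ => 0 := by
    filter_upwards [(isOpen_lt continuous_const continuous_norm).mem_nhds hw] with v hv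
    exact hφ.supp v hv
  unfold pd
  rw [h.fderiv_eq]
  simp

omit [DecidableEq ι] in
theorem cont_shift {f : (ι → ℝ) → ℝ} (hf : Continuous f) (x : ι → ℝ) (ε : ℝ) :
    Continuous fun w : ι → ℝ => f (x - ε • w) :=
  hf.comp (by fun_prop)

variable (C : (ι → ℝ) → ι → ι → ℝ) (φ : (ι → ℝ) → ℝ)

theorem kern_cont (hφ : Mol φ) (hC : ∀ p q, ContDiff ℝ (⊤ : ℕ∞) fun y => C y p q)
    (q p : ι) (x : ι → ℝ) (ε : ℝ) :
    Continuous (kern C φ ε q p x) := by
  unfold kern
  have h1 : Continuous fun w : ι → ℝ => C (x - ε • w) p q :=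
    cont_shift (hC p q).continuous x ε
  have h2 : Continuous fun w : ι → ℝ => pd p (fun z => C z p q) (x - ε • w) :=
    cont_shift (pd_cont (hC p q) p) x ε
  have h3 := pd_cont hφ.smooth p
  have h4 := hφ.smooth.continuous
  exact (continuous_const.mul ((h1.sub continuous_const).mul h3)).sub (h2.mul h4)

theorem kern_zero (hφ : Mol φ) (q p : ι) (x : ι → ℝ) (ε : ℝ) (w : ι → ℝ) (hw : 1 < ‖w‖) :
    kern C φ ε q p x w = 0 := by
  unfold kern
  rw [pd_zero hφ p w hw, hφ.supp w hw]
  ring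

omit [DecidableEq ι] in
theorem cs_of_zero {f : (ι → ℝ) → ℝ} (h : ∀ w, 1 < ‖w‖ → f w = 0) : HasCompactSupport f := by
  refine HasCompactSupport.of_support_subset_isCompact (isCompact_closedBall (0 : ι → ℝ) 1) ?_
  intro w hw
  rw [mem_closedBall_zero_iff]
  by_contra h'
  exact hw (h w (not_le.mp h'))

omit [DecidableEq ι] in
/-- Integrable times continuous with support in the unit ball. -/
theorem int_mul {g f : (ι → ℝ) → ℝ} (hg : Integrable g) (hf : Continuous f)
    (h0 : ∀ w, 1 < ‖w‖ → f w = 0) : Integrable fun w => g w * f w := by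
  obtain ⟨B, hB⟩ := (cs_of_zero h0).exists_bound_of_continuous hf
  exact hg.mul_bdd hf.aestronglyMeasurable (ae_of_all _ hB)

theorem kern_int (hφ : Mol φ) (hC : ∀ p q, ContDiff ℝ (⊤ : ℕ∞) fun y => C y p q)
    (q p : ι) (x : ι → ℝ) {ε : ℝ} (hε : 0 < ε) :
    ∫ w, kern C φ ε q p x w = 0 := by
  have c1 : Continuous fun w : ι → ℝ => C (x - ε • w) p q :=
    cont_shift (hC p q).continuous x ε
  have c2 : Continuous fun w : ι → ℝ => pd p (fun z => C z p q) (x - ε • w) :=
    cont_shift (pd_cont (hC p q) p) x ε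
  have c3 := pd_cont hφ.smooth p
  have c4 := hφ.smooth.continuous
  have z3 := pd_zero hφ p
  have z4 := hφ.supp
  -- the derivative of the shifted coefficient
  have hd : ∀ w : ι → ℝ, HasFDerivAt (fun w : ι → ℝ => C (x - ε • w) p q - C x p q)
      ((fderiv ℝ (fun z => C z p q) (x - ε • w)).comp
        (0 - ε • ContinuousLinearMap.id ℝ (ι → ℝ))) w := by
    intro w
    have h1 : HasFDerivAt (fun z => C z p q) (fderiv ℝ (fun z => C z p q) (x - ε • w))
        (x - ε • w) :=
      (((hC p q).differentiable (by simp)) (x - ε • w)).hasFDerivAt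
    have h2 : HasFDerivAt (fun w : ι → ℝ => x - ε • w)
        (0 - ε • ContinuousLinearMap.id ℝ (ι → ℝ)) w :=
      (hasFDerivAt_const x w).sub ((hasFDerivAt_id w).const_smul ε)
    exact (HasFDerivAt.comp w h1 h2).sub_const _
  have hf : ∀ w : ι → ℝ, fderiv ℝ (fun w : ι → ℝ => C (x - ε • w) p q - C x p q) w
      (Pi.single p 1) = -(ε * pd p (fun z => C z p q) (x - ε • w)) := by
    intro w
    rw [(hd w).fderiv]
    unfold pd
    rw [ContinuousLinearMap.comp_apply]
    have : (0 - ε • ContinuousLinearMap.id ℝ (ι → ℝ)) (Pi.single p (1 : ℝ)) =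
        (-ε) • Pi.single p (1 : ℝ) := by
      simp
    rw [this, map_smul, smul_eq_mul]
    ring
  have hip := integral_mul_fderiv_eq_neg_fderiv_mul_of_integrable (μ := (volume : Measure (ι → ℝ)))
    (f := fun w : ι → ℝ => C (x - ε • w) p q - C x p q) (g := φ) (v := Pi.single p (1 : ℝ))
    (by
      have e : (fun w : ι → ℝ => fderiv ℝ (fun w : ι → ℝ => C (x - ε • w) p q - C x p q) w
          (Pi.single p 1) * φ w) = fun w => -(ε * pd p (fun z => C z p q) (x - ε • w)) * φ w := by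
        funext w
        rw [hf w]
      rw [e]
      refine Continuous.integrable_of_hasCompactSupport ?_ (cs_of_zero ?_)
      · exact ((continuous_const.mul c2).neg).mul c4
      · intro w hw
        rw [z4 w hw, mul_zero])
    (by
      refine Continuous.integrable_of_hasCompactSupport ?_ (cs_of_zero ?_)
      · exact (c1.sub continuous_const).mul c3
      · intro w hw
        have := z3 w hw
        unfold pd at this
        rw [this, mul_zero])
    (by
      refine Continuous.integrable_of_hasCompactSupport ?_ (cs_of_zero ?_)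
      · exact (c1.sub continuous_const).mul c4
      · intro w hw
        rw [z4 w hw, mul_zero])
    (fun w _ => (hd w).differentiableAt)
    (fun w _ => (hφ.smooth.differentiable (by simp)) w)
  have i1 : Integrable fun w : ι → ℝ => (C (x - ε • w) p q - C x p q) * pd p φ w := by
    refine Continuous.integrable_of_hasCompactSupport ?_ (cs_of_zero ?_)
    · exact (c1.sub continuous_const).mul c3
    · intro w hw
      rw [z3 w hw, mul_zero]
  have i2 : Integrable fun w : ι → ℝ => pd p (fun z => C z p q) (x - ε • w) * φ w := by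
    refine Continuous.integrable_of_hasCompactSupport ?_ (cs_of_zero ?_)
    · exact c2.mul c4
    · intro w hw
      rw [z4 w hw, mul_zero]
  have e1 : ∫ w : ι → ℝ, (C (x - ε • w) p q - C x p q) * pd p φ w =
      ε * ∫ w : ι → ℝ, pd p (fun z => C z p q) (x - ε • w) * φ w := by
    have e2 : (∫ w : ι → ℝ, (C (x - ε • w) p q - C x p q) * pd p φ w) =
        ∫ w : ι → ℝ, (C (x - ε • w) p q - C x p q) * fderiv ℝ φ w (Pi.single p 1) := rfl
    rw [e2, hip, ← integral_const_mul, ← integral_neg]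
    refine integral_congr_ae (ae_of_all _ fun w => ?_)
    show -(fderiv ℝ (fun w : ι → ℝ => C (x - ε • w) p q - C x p q) w (Pi.single p 1) * φ w) =
      ε * (pd p (fun z => C z p q) (x - ε • w) * φ w)
    rw [hf w]
    ring
  unfold kern
  rw [integral_sub (i1.const_mul _) i2, integral_const_mul, e1]
  field_simp
  ring

theorem ident (hφ : Mol φ) (hC : ∀ p q, ContDiff ℝ (⊤ : ℕ∞) fun y => C y p q)
    {g : (ι → ℝ) → ℝ} (hg : Integrable g) (q : ι) (x : ι → ℝ) {ε : ℝ} (hε : 0 < ε) :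
    Th C φ g ε q x - ∑ p, C x p q * mollD φ g ε p x =
      ∑ p, ∫ w, (g (x - ε • w) - g x) * kern C φ ε q p x w := by
  have hs := int_shift hg x hε
  unfold Th mollD
  rw [← Finset.sum_sub_distrib]
  refine Finset.sum_congr rfl fun p _ => ?_
  have c1 : Continuous fun w : ι → ℝ => C (x - ε • w) p q :=
    cont_shift (hC p q).continuous x ε
  have c2 : Continuous fun w : ι → ℝ => pd p (fun z => C z p q) (x - ε • w) :=
    cont_shift (pd_cont (hC p q) p) x ε
  have c3 := pd_cont hφ.smooth p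
  have c4 := hφ.smooth.continuous
  have z3 := pd_zero hφ p
  have z4 := hφ.supp
  have j1 : Integrable fun w : ι → ℝ => g (x - ε • w) * C (x - ε • w) p q * pd p φ w := by
    have := int_mul hs (c1.mul c3) (fun w hw => by rw [Pi.mul_apply, z3 w hw, mul_zero])
    refine this.congr (ae_of_all _ fun w => ?_)
    show g (x - ε • w) * (C (x - ε • w) p q * pd p φ w) = _
    ring
  have j2 : Integrable fun w : ι → ℝ =>
      g (x - ε • w) * pd p (fun z => C z p q) (x - ε • w) * φ w := by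
    have := int_mul hs (c2.mul c4) (fun w hw => by rw [Pi.mul_apply, z4 w hw, mul_zero])
    refine this.congr (ae_of_all _ fun w => ?_)
    show g (x - ε • w) * (pd p (fun z => C z p q) (x - ε • w) * φ w) = _
    ring
  have j3 : Integrable fun w : ι → ℝ => g (x - ε • w) * pd p φ w :=
    int_mul hs c3 z3
  have j4 : Integrable fun w : ι → ℝ => g (x - ε • w) * kern C φ ε q p x w :=
    int_mul hs (kern_cont C φ hφ hC q p x ε) (kern_zero C φ hφ q p x ε)
  have j5 : Integrable fun w : ι → ℝ => kern C φ ε q p x w :=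
    (kern_cont C φ hφ hC q p x ε).integrable_of_hasCompactSupport
      (cs_of_zero (kern_zero C φ hφ q p x ε))
  have e1 : ∫ w, (g (x - ε • w) - g x) * kern C φ ε q p x w =
      ∫ w, g (x - ε • w) * kern C φ ε q p x w := by
    have : (fun w => (g (x - ε • w) - g x) * kern C φ ε q p x w) =
        fun w => g (x - ε • w) * kern C φ ε q p x w - g x * kern C φ ε q p x w := by
      funext w
      ring
    rw [this, integral_sub j4 (j5.const_mul _), integral_const_mul,
      kern_int C φ hφ hC q p x hε, mul_zero, sub_zero]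
  have e2 : ∫ w, g (x - ε • w) * kern C φ ε q p x w =
      ∫ w, ((ε⁻¹ * (g (x - ε • w) * C (x - ε • w) p q * pd p φ w) -
        g (x - ε • w) * pd p (fun z => C z p q) (x - ε • w) * φ w) -
        C x p q * (ε⁻¹ * (g (x - ε • w) * pd p φ w))) := by
    refine integral_congr_ae (ae_of_all _ fun w => ?_)
    show g (x - ε • w) * kern C φ ε q p x w = (ε⁻¹ * (g (x - ε • w) * C (x - ε • w) p q * pd p φ w) -
      g (x - ε • w) * pd p (fun z => C z p q) (x - ε • w) * φ w) -
      C x p q * (ε⁻¹ * (g (x - ε • w) * pd p φ w))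
    unfold kern
    ring
  have j6 : Integrable fun w : ι → ℝ => ε⁻¹ * (g (x - ε • w) * C (x - ε • w) p q * pd p φ w) :=
    j1.const_mul _
  have j7 : Integrable fun w : ι → ℝ => C x p q * (ε⁻¹ * (g (x - ε • w) * pd p φ w)) :=
    (j3.const_mul _).const_mul _
  have j8 : Integrable fun w : ι → ℝ => ε⁻¹ * (g (x - ε • w) * C (x - ε • w) p q * pd p φ w) -
      g (x - ε • w) * pd p (fun z => C z p q) (x - ε • w) * φ w := j6.sub j2
  rw [e1, e2, integral_sub j8 j7, integral_sub j6 j2, integral_const_mul, integral_const_mul,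
    integral_const_mul]

theorem kern_bd (hφ : Mol φ) (hC : ∀ p q, ContDiff ℝ (⊤ : ℕ∞) fun y => C y p q)
    (q p : ι) (T : ℝ) : ∃ M : ℝ, 0 ≤ M ∧ ∀ x : ι → ℝ, ‖x‖ ≤ T → ∀ ε : ℝ, 0 < ε → ε ≤ 1 →
      ∀ w, |kern C φ ε q p x w| ≤ M := by
  obtain ⟨B1, hB1⟩ := (pd_cs hφ p).exists_bound_of_continuous (pd_cont hφ.smooth p)
  obtain ⟨B2, hB2⟩ := (phi_cs hφ).exists_bound_of_continuous hφ.smooth.continuous
  have cf : Continuous (fderiv ℝ fun y => C y p q) := (hC p q).continuous_fderiv (by simp)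
  obtain ⟨L, hL⟩ := (isCompact_closedBall (0 : ι → ℝ) (T + 1)).exists_bound_of_continuousOn
    cf.continuousOn
  have hB1' : 0 ≤ B1 := (norm_nonneg _).trans (hB1 0)
  have hB2' : 0 ≤ B2 := (norm_nonneg _).trans (hB2 0)
  refine ⟨|L| * B1 + |L| * ‖(Pi.single p (1 : ℝ) : ι → ℝ)‖ * B2, by positivity, ?_⟩
  intro x hx ε h0 h1 w
  by_cases hw : 1 < ‖w‖
  · rw [kern_zero C φ hφ q p x ε w hw, abs_zero]
    positivity
  push Not at hw
  have hx' : x ∈ Metric.closedBall (0 : ι → ℝ) (T + 1) := by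
    rw [mem_closedBall_zero_iff]
    linarith
  have hn : ‖ε • w‖ ≤ ε := by
    rw [norm_smul, Real.norm_eq_abs, abs_of_pos h0]
    calc ε * ‖w‖ ≤ ε * 1 := mul_le_mul_of_nonneg_left hw h0.le
      _ = ε := mul_one ε
  have hy : x - ε • w ∈ Metric.closedBall (0 : ι → ℝ) (T + 1) := by
    rw [mem_closedBall_zero_iff]
    calc ‖x - ε • w‖ ≤ ‖x‖ + ‖ε • w‖ := norm_sub_le _ _
      _ ≤ T + 1 := by linarith
  have hL0 : 0 ≤ L := (norm_nonneg _).trans (hL x hx')
  have k1 : ‖C (x - ε • w) p q - C x p q‖ ≤ L * ‖(x - ε • w) - x‖ :=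
    Convex.norm_image_sub_le_of_norm_fderiv_le (𝕜 := ℝ) (f := fun y => C y p q)
      (fun z _ => ((hC p q).differentiable (by simp)) z)
      (fun z hz => hL z hz) (convex_closedBall (0 : ι → ℝ) (T + 1)) hx' hy
  have k2 : ‖(x - ε • w) - x‖ ≤ ε := by
    have : (x - ε • w) - x = -(ε • w) := by abel
    rw [this, norm_neg]
    exact hn
  have k3 : |C (x - ε • w) p q - C x p q| ≤ L * ε := by
    rw [← Real.norm_eq_abs]
    exact k1.trans (mul_le_mul_of_nonneg_left k2 hL0)
  have k4 : |pd p (fun z => C z p q) (x - ε • w)| ≤ L * ‖(Pi.single p (1 : ℝ) : ι → ℝ)‖ := by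
    unfold pd
    rw [← Real.norm_eq_abs]
    exact (ContinuousLinearMap.le_opNorm _ _).trans
      (mul_le_mul_of_nonneg_right (hL _ hy) (norm_nonneg _))
  have k5 : |ε⁻¹ * ((C (x - ε • w) p q - C x p q) * pd p φ w)| ≤ L * B1 := by
    rw [abs_mul, abs_mul, abs_of_pos (inv_pos.mpr h0)]
    have hb := hB1 w
    rw [Real.norm_eq_abs] at hb
    calc ε⁻¹ * (|C (x - ε • w) p q - C x p q| * |pd p φ w|) ≤ ε⁻¹ * ((L * ε) * B1) := by
          refine mul_le_mul_of_nonneg_left ?_ (inv_pos.mpr h0).le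
          exact mul_le_mul k3 hb (abs_nonneg _) (mul_nonneg hL0 h0.le)
      _ = L * B1 := by
          field_simp
  have k6 : |pd p (fun z => C z p q) (x - ε • w) * φ w| ≤
      L * ‖(Pi.single p (1 : ℝ) : ι → ℝ)‖ * B2 := by
    rw [abs_mul]
    have hb := hB2 w
    rw [Real.norm_eq_abs] at hb
    exact mul_le_mul k4 hb (abs_nonneg _) (mul_nonneg hL0 (norm_nonneg _))
  unfold kern
  rw [abs_of_nonneg hL0]
  exact (abs_sub _ _).trans (add_le_add k5 k6)

omit [DecidableEq ι] in
/-- Cauchy-Schwarz on a set of finite measure. -/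
theorem cs_set {s : Set (ι → ℝ)} (hs : volume s ≠ ⊤) {h : (ι → ℝ) → ℝ}
    (h1 : IntegrableOn h s) (h2 : IntegrableOn (fun w => h w ^ 2) s) :
    (∫ w in s, h w) ^ 2 ≤ (volume s).toReal * ∫ w in s, h w ^ 2 := by
  have hfin : IsFiniteMeasure (volume.restrict s) := ⟨by
    rw [Measure.restrict_apply_univ]
    exact lt_top_iff_ne_top.mpr hs⟩
  set V : ℝ := (volume s).toReal with hV
  set I : ℝ := ∫ w in s, h w with hI
  set J : ℝ := ∫ w in s, h w ^ 2 with hJ
  have e0 : ∫ w in s, (1 : ℝ) = V := by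
    rw [setIntegral_const]
    simp [hV, Measure.real]
  have hV0 : 0 ≤ V := ENNReal.toReal_nonneg
  have hJ0 : 0 ≤ J := by
    rw [hJ]
    exact integral_nonneg fun w => sq_nonneg _
  have e1 : ∫ w in s, (V * h w - I) ^ 2 = V ^ 2 * J - V * I ^ 2 := by
    have e2 : (fun w => (V * h w - I) ^ 2) = fun w => V ^ 2 * h w ^ 2 - (2 * V * I) * h w +
        I ^ 2 * 1 := by
      funext w
      ring
    rw [e2, integral_add, integral_sub, integral_const_mul, integral_const_mul,
      integral_const_mul, e0, ← hI, ← hJ]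
    · ring
    · exact h2.const_mul _
    · exact h1.const_mul _
    · exact (h2.const_mul _).sub (h1.const_mul _)
    · exact (integrable_const _)
  have e3 : 0 ≤ ∫ w in s, (V * h w - I) ^ 2 := integral_nonneg fun w => sq_nonneg _
  rw [e1] at e3
  rcases hV0.eq_or_lt with hz | hz
  · have hs0 : volume s = 0 := by
      rcases (ENNReal.toReal_eq_zero_iff _).mp hz.symm with h' | h'
      · exact h'
      · exact absurd h' hs
    have : I = 0 := by
      rw [hI]
      exact setIntegral_measure_zero _ hs0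
    rw [this]
    simp only [ne_eq, OfNat.ofNat_ne_zero, not_false_eq_true, zero_pow]
    positivity
  · have : V * (V * J - I ^ 2) = V ^ 2 * J - V * I ^ 2 := by ring
    rw [← this] at e3
    have := (mul_nonneg_iff_of_pos_left hz).mp e3
    linarith

omit [DecidableEq ι] in
theorem sq_bd (a b : ℝ) : (a - b) ^ 2 ≤ 2 * a ^ 2 + 2 * b ^ 2 := by
  linarith [sq_nonneg (a + b), show (a - b) ^ 2 + (a + b) ^ 2 = 2 * a ^ 2 + 2 * b ^ 2 by ring]

omit [DecidableEq ι] in
theorem diff_int {g : (ι → ℝ) → ℝ} (hg : StronglyMeasurable g)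
    (h2 : Integrable fun x => g x ^ 2) (v : ι → ℝ) :
    Integrable (fun x => (g (x - v) - g x) ^ 2) ∧
      ∫ x, (g (x - v) - g x) ^ 2 ≤ 4 * ∫ x, g x ^ 2 := by
  have m1 : StronglyMeasurable fun x : ι → ℝ => g (x - v) :=
    hg.comp_measurable (by fun_prop)
  have i1 : Integrable fun x : ι → ℝ => g (x - v) ^ 2 := h2.comp_sub_right v
  have i2 : Integrable fun x : ι → ℝ => 2 * g (x - v) ^ 2 + 2 * g x ^ 2 :=
    (i1.const_mul 2).add (h2.const_mul 2)
  have i3 : Integrable fun x => (g (x - v) - g x) ^ 2 := by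
    refine i2.mono' ((m1.sub hg).pow 2).aestronglyMeasurable (ae_of_all _ fun x => ?_)
    rw [Real.norm_eq_abs, abs_of_nonneg (sq_nonneg _)]
    exact sq_bd _ _
  refine ⟨i3, ?_⟩
  have h3 : ∫ x, (g (x - v) - g x) ^ 2 ≤ ∫ x, (2 * g (x - v) ^ 2 + 2 * g x ^ 2) :=
    integral_mono i3 i2 fun x => sq_bd _ _
  rw [integral_add (i1.const_mul 2) (h2.const_mul 2), integral_const_mul, integral_const_mul,
    integral_sub_right_eq_self (fun x => g x ^ 2) v] at h3
  linarith

omit [DecidableEq ι] in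
theorem dbl {g : (ι → ℝ) → ℝ} (hg : StronglyMeasurable g) (h2 : Integrable fun x => g x ^ 2)
    (ε : ℝ) {B : Set (ι → ℝ)} (hB : volume B ≠ ⊤) :
    Integrable (fun z : (ι → ℝ) × (ι → ℝ) => (g (z.1 - ε • z.2) - g z.1) ^ 2)
      ((volume : Measure (ι → ℝ)).prod (volume.restrict B)) := by
  have hfin : IsFiniteMeasure ((volume : Measure (ι → ℝ)).restrict B) := ⟨by
    rw [Measure.restrict_apply_univ]
    exact lt_top_iff_ne_top.mpr hB⟩
  have m1 : StronglyMeasurable fun z : (ι → ℝ) × (ι → ℝ) => (g (z.1 - ε • z.2) - g z.1) ^ 2 :=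
    ((hg.comp_measurable (by fun_prop)).sub (hg.comp_measurable measurable_fst)).pow 2
  rw [integrable_prod_iff' m1.aestronglyMeasurable]
  refine ⟨ae_of_all _ fun y => (diff_int hg h2 (ε • y)).1, ?_⟩
  have m2 : StronglyMeasurable fun y : ι → ℝ =>
      ∫ x : ι → ℝ, ‖(g (x - ε • y) - g x) ^ 2‖ := by
    have m3 : StronglyMeasurable fun z : (ι → ℝ) × (ι → ℝ) =>
        ‖(g (z.1 - ε • z.2) - g z.1) ^ 2‖ := m1.norm
    exact m3.integral_prod_left'
  refine Integrable.of_bound m2.aestronglyMeasurable (4 * ∫ x, g x ^ 2) (ae_of_all _ fun y => ?_)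
  have e1 : ∫ x : ι → ℝ, ‖(g (x - ε • y) - g x) ^ 2‖ = ∫ x, (g (x - ε • y) - g x) ^ 2 := by
    refine integral_congr_ae (ae_of_all _ fun x => ?_)
    show ‖(g (x - ε • y) - g x) ^ 2‖ = _
    rw [Real.norm_eq_abs, abs_of_nonneg (sq_nonneg _)]
  show ‖∫ x : ι → ℝ, ‖(g (x - ε • y) - g x) ^ 2‖‖ ≤ _
  rw [e1, Real.norm_eq_abs, abs_of_nonneg (integral_nonneg fun x => sq_nonneg _)]
  exact (diff_int hg h2 (ε • y)).2

/-- The estimate for strongly measurable functions. -/
theorem est (hφ : Mol φ) (hC : ∀ p q, ContDiff ℝ (⊤ : ℕ∞) fun y => C y p q) (q : ι) (T : ℝ) :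
    ∃ K : ℝ, 0 ≤ K ∧ ∀ g : (ι → ℝ) → ℝ, StronglyMeasurable g → Integrable g →
      Integrable (fun x => g x ^ 2) → ∀ ε : ℝ, 0 < ε → ε ≤ 1 → ∀ δ : ℝ, 0 ≤ δ →
      (∀ v : ι → ℝ, ‖v‖ ≤ ε → ∫ x, (g (x - v) - g x) ^ 2 ≤ δ) →
      ∫ x in {x : ι → ℝ | ‖x‖ ≤ T}, (Th C φ g ε q x - ∑ p, C x p q * mollD φ g ε p x) ^ 2 ≤
        K * δ := by
  choose M hM0 hM using fun p => kern_bd C φ hφ hC q p T
  set B : Set (ι → ℝ) := Metric.closedBall 0 1 with hB
  have hBt : volume B ≠ ⊤ := measure_closedBall_lt_top.ne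
  have hBm : MeasurableSet B := Metric.isClosed_closedBall.measurableSet
  have hfin : IsFiniteMeasure ((volume : Measure (ι → ℝ)).restrict B) := ⟨by
    rw [Measure.restrict_apply_univ]
    exact lt_top_iff_ne_top.mpr hBt⟩
  set V : ℝ := (volume B).toReal with hV
  have hV0 : 0 ≤ V := ENNReal.toReal_nonneg
  set S : ℝ := ∑ p, M p with hS
  have hS0 : 0 ≤ S := Finset.sum_nonneg fun p _ => hM0 p
  refine ⟨S ^ 2 * V * V, by positivity, ?_⟩
  intro g hg h1 h2 ε hε0 hε1 δ hδ hv
  -- pointwise bound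
  have pw : ∀ x : ι → ℝ, ‖x‖ ≤ T → (Th C φ g ε q x - ∑ p, C x p q * mollD φ g ε p x) ^ 2 ≤
      S ^ 2 * V * ∫ w in B, (g (x - ε • w) - g x) ^ 2 := by
    intro x hx
    have i1 : IntegrableOn (fun w => g (x - ε • w) - g x) B :=
      (int_shift h1 x hε0).integrableOn.sub (integrable_const _)
    have m1 : StronglyMeasurable fun w : ι → ℝ => g (x - ε • w) :=
      hg.comp_measurable (by fun_prop)
    have i3 : IntegrableOn (fun w => 2 * g (x - ε • w) ^ 2 + 2 * g x ^ 2) B :=
      (((int_shift h2 x hε0).integrableOn).const_mul 2).add (integrable_const _)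
    have i2 : IntegrableOn (fun w => (g (x - ε • w) - g x) ^ 2) B := by
      refine i3.mono' ((m1.sub stronglyMeasurable_const).pow 2).aestronglyMeasurable
        (ae_of_all _ fun w => ?_)
      rw [Real.norm_eq_abs, abs_of_nonneg (sq_nonneg _)]
      exact sq_bd _ _
    have i4 : IntegrableOn (fun w => |g (x - ε • w) - g x|) B := i1.abs
    have i5 : IntegrableOn (fun w => |g (x - ε • w) - g x| ^ 2) B := by
      refine i2.congr (ae_of_all _ fun w => ?_)
      exact (sq_abs _).symm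
    have cs := cs_set hBt i4 i5
    have e5 : ∫ w in B, |g (x - ε • w) - g x| ^ 2 = ∫ w in B, (g (x - ε • w) - g x) ^ 2 := by
      refine integral_congr_ae (ae_of_all _ fun w => ?_)
      exact sq_abs _
    rw [e5, ← hV] at cs
    have I0 : 0 ≤ ∫ w in B, |g (x - ε • w) - g x| := integral_nonneg fun w => abs_nonneg _
    rw [ident C φ hφ hC h1 q x hε0]
    have b1 : ∀ p, |∫ w, (g (x - ε • w) - g x) * kern C φ ε q p x w| ≤
        M p * ∫ w in B, |g (x - ε • w) - g x| := by
      intro p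
      have e6 : ∫ w, (g (x - ε • w) - g x) * kern C φ ε q p x w =
          ∫ w in B, (g (x - ε • w) - g x) * kern C φ ε q p x w := by
        refine (setIntegral_eq_integral_of_forall_compl_eq_zero fun w hw => ?_).symm
        rw [kern_zero C φ hφ q p x ε w (by
          rw [hB, mem_closedBall_zero_iff] at hw
          exact not_le.mp hw), mul_zero]
      rw [e6, ← Real.norm_eq_abs, ← integral_const_mul]
      refine norm_integral_le_of_norm_le (i4.const_mul _) (ae_of_all _ fun w => ?_)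
      rw [Real.norm_eq_abs, abs_mul, mul_comm (M p)]
      exact mul_le_mul_of_nonneg_left (hM p x hx ε hε0 hε1 w) (abs_nonneg _)
    have b2 : |∑ p, ∫ w, (g (x - ε • w) - g x) * kern C φ ε q p x w| ≤
        S * ∫ w in B, |g (x - ε • w) - g x| := by
      rw [hS, Finset.sum_mul]
      exact (Finset.abs_sum_le_sum_abs _ _).trans (Finset.sum_le_sum fun p _ => b1 p)
    rw [← sq_abs]
    calc |∑ p, ∫ w, (g (x - ε • w) - g x) * kern C φ ε q p x w| ^ 2 ≤
        (S * ∫ w in B, |g (x - ε • w) - g x|) ^ 2 := pow_le_pow_left₀ (abs_nonneg _) b2 2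
      _ = S ^ 2 * (∫ w in B, |g (x - ε • w) - g x|) ^ 2 := by ring
      _ ≤ S ^ 2 * (V * ∫ w in B, (g (x - ε • w) - g x) ^ 2) :=
        mul_le_mul_of_nonneg_left cs (sq_nonneg _)
      _ = _ := by ring
  -- integration
  have hd := dbl hg h2 ε hBt
  have iH : Integrable fun x : ι → ℝ => ∫ w in B, (g (x - ε • w) - g x) ^ 2 :=
    hd.integral_prod_left
  have hsw : ∫ x : ι → ℝ, (∫ w in B, (g (x - ε • w) - g x) ^ 2) =
      ∫ w in B, (∫ x : ι → ℝ, (g (x - ε • w) - g x) ^ 2) :=
    integral_integral_swap hd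
  have iG : IntegrableOn (fun w : ι → ℝ => ∫ x : ι → ℝ, (g (x - ε • w) - g x) ^ 2) B :=
    hd.integral_prod_right
  have b3 : ∫ w in B, (∫ x : ι → ℝ, (g (x - ε • w) - g x) ^ 2) ≤ V * δ := by
    have : ∫ w in B, δ = V * δ := by
      rw [setIntegral_const, smul_eq_mul]
      rfl
    rw [← this]
    refine setIntegral_mono_on iG (integrable_const _) hBm fun w hw => ?_
    rw [hB, mem_closedBall_zero_iff] at hw
    refine hv _ ?_
    rw [norm_smul, Real.norm_eq_abs, abs_of_pos hε0]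
    calc ε * ‖w‖ ≤ ε * 1 := mul_le_mul_of_nonneg_left hw hε0.le
      _ = ε := mul_one ε
  have hTm : MeasurableSet {x : ι → ℝ | ‖x‖ ≤ T} :=
    measurableSet_le measurable_norm measurable_const
  calc ∫ x in {x : ι → ℝ | ‖x‖ ≤ T}, (Th C φ g ε q x - ∑ p, C x p q * mollD φ g ε p x) ^ 2 ≤
      ∫ x in {x : ι → ℝ | ‖x‖ ≤ T}, S ^ 2 * V * ∫ w in B, (g (x - ε • w) - g x) ^ 2 := by
        refine integral_mono_of_nonneg (ae_of_all _ fun x => sq_nonneg _)
          (iH.integrableOn.const_mul _) ?_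
        filter_upwards [ae_restrict_mem hTm] with x hx
        exact pw x hx
    _ = S ^ 2 * V * ∫ x in {x : ι → ℝ | ‖x‖ ≤ T}, ∫ w in B, (g (x - ε • w) - g x) ^ 2 :=
        integral_const_mul _ _
    _ ≤ S ^ 2 * V * ∫ x : ι → ℝ, ∫ w in B, (g (x - ε • w) - g x) ^ 2 := by
        refine mul_le_mul_of_nonneg_left ?_ (by positivity)
        exact setIntegral_le_integral iH
          (ae_of_all _ fun x => integral_nonneg fun w => sq_nonneg _)
    _ ≤ S ^ 2 * V * (V * δ) := by
        rw [hsw]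
        exact mul_le_mul_of_nonneg_left b3 (by positivity)
    _ = S ^ 2 * V * V * δ := by ring

theorem fr_st (hTr : TrStatement) : FrStatement := by
  intro ι _ _ φ g C hφ hg hC q T
  obtain ⟨K, hK0, hK⟩ := est C φ hφ hC q T
  obtain ⟨R, hR⟩ := hg.supp
  -- `g` is integrable
  have hgi : Integrable g := by
    have hb : Integrable fun x : ι → ℝ =>
        (Metric.closedBall (0 : ι → ℝ) R).indicator (fun _ => (1 : ℝ)) x + g x ^ 2 := by
      refine Integrable.add ?_ hg.sq
      rw [integrable_indicator_iff Metric.isClosed_closedBall.measurableSet]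
      exact integrableOn_const measure_closedBall_lt_top.ne
    refine hb.mono' hg.meas (ae_of_all _ fun x => ?_)
    rw [Real.norm_eq_abs]
    by_cases hx : x ∈ Metric.closedBall (0 : ι → ℝ) R
    · rw [indicator_of_mem hx]
      have h1 : |g x| ^ 2 = g x ^ 2 := sq_abs _
      have h2 : 0 ≤ (|g x| - 1) ^ 2 := sq_nonneg _
      have h3 : 0 ≤ |g x| := abs_nonneg _
      have h4 : (|g x| - 1) ^ 2 = |g x| ^ 2 - 2 * |g x| + 1 := by ring
      linarith
    · rw [indicator_of_notMem hx]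
      rw [mem_closedBall_zero_iff, not_le] at hx
      rw [hR x hx]
      simp
  obtain ⟨g', hg', hgg⟩ := hg.meas
  have hg'i : Integrable g' := hgi.congr hgg
  have hg's : Integrable fun x => g' x ^ 2 := by
    refine hg.sq.congr ?_
    filter_upwards [hgg] with x hx
    rw [hx]
  have htr := hTr ι g' hg'.aestronglyMeasurable hg's
  have hsame : ∀ ε : ℝ, 0 < ε → ∀ x : ι → ℝ, Th C φ g ε q x - ∑ p, C x p q * mollD φ g ε p x =
      Th C φ g' ε q x - ∑ p, C x p q * mollD φ g' ε p x := by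
    intro ε hε x
    have hae := ae_shift hgg x hε
    unfold Th mollD
    congr 1
    · refine Finset.sum_congr rfl fun p _ => ?_
      congr 1
      · congr 1
        refine integral_congr_ae ?_
        filter_upwards [hae] with w hw
        rw [hw]
      · refine integral_congr_ae ?_
        filter_upwards [hae] with w hw
        rw [hw]
    · refine Finset.sum_congr rfl fun p _ => ?_
      congr 2
      refine integral_congr_ae ?_
      filter_upwards [hae] with w hw
      rw [hw]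
  rw [Metric.tendsto_nhdsWithin_nhds]
  intro η hη
  rw [Metric.tendsto_nhds_nhds] at htr
  obtain ⟨r, hr0, hr⟩ := htr (η / (2 * (K + 1))) (by positivity)
  refine ⟨min r 1, lt_min hr0 one_pos, ?_⟩
  intro ε hε hd
  have hε0 : 0 < ε := hε
  rw [Real.dist_eq, sub_zero, abs_of_pos hε0] at hd
  have hε1 : ε ≤ 1 := (hd.trans_le (min_le_right _ _)).le
  have hεr : ε < r := hd.trans_le (min_le_left _ _)
  have key := hK g' hg' hg'i hg's ε hε0 hε1 (η / (2 * (K + 1))) (by positivity) (by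
    intro v hv
    have h1 := hr (x := v) (by
      rw [dist_zero_right]
      exact hv.trans_lt hεr)
    rw [Real.dist_eq] at h1
    have h2 : ∫ x : ι → ℝ, (g' (x - (0 : ι → ℝ)) - g' x) ^ 2 = 0 := by
      simp
    have h3 := le_abs_self ((∫ x : ι → ℝ, (g' (x - v) - g' x) ^ 2) - 0)
    linarith)
  have e : ∫ x in {x : ι → ℝ | ‖x‖ ≤ T},
      (Th C φ g ε q x - ∑ p, C x p q * mollD φ g ε p x) ^ 2 =
      ∫ x in {x : ι → ℝ | ‖x‖ ≤ T},
      (Th C φ g' ε q x - ∑ p, C x p q * mollD φ g' ε p x) ^ 2 := by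
    refine integral_congr_ae (ae_of_all _ fun x => ?_)
    show (Th C φ g ε q x - ∑ p, C x p q * mollD φ g ε p x) ^ 2 = _
    rw [hsame ε hε0 x]
  rw [Real.dist_eq, sub_zero, e, abs_of_nonneg (integral_nonneg fun x => sq_nonneg _)]
  refine key.trans_lt ?_
  have h5 : K * (η / (2 * (K + 1))) ≤ (K + 1) * (η / (2 * (K + 1))) :=
    mul_le_mul_of_nonneg_right (by linarith) (by positivity)
  have h6 : (K + 1) * (η / (2 * (K + 1))) = η / 2 := by
    have : K + 1 ≠ 0 := by positivity
    field_simp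
  linarith

end Pool.Agent.Lib.MP_fa837f_gt.P2.H78
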